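import Pool.Agent.Helper89.GW.Stmts

/-!
# MP_897da6_gt, module PHI: the deformation `Phi`
-/

set_option autoImplicit false

open scoped ContDiff Topology
open Set Filter

namespace GW

/-- derivative of `Phi` -/
noncomputable def phi_D (β : ℝ → ℝ) (F : E → ℝ) (s : ℝ) (p : E) : Fin 4 → E →L[ℝ] ℝ :=
  ![al β s (p 2) • ContinuousLinearMap.proj 0 +
      (p 0) • (((s - 1) * deriv β (p 2)) • ContinuousLinearMap.proj 2),
    ContinuousLinearMap.proj 1, ContinuousLinearMap.proj 2,
    al β s (p 2) • ContinuousLinearMap.proj 3 +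
      (p 3) • (((s - 1) * deriv β (p 2)) • ContinuousLinearMap.proj 2) -
      (((s - 1) * deriv β (p 2)) • fderiv ℝ F p +
        (F p) • (((s - 1) * deriv (deriv β) (p 2)) • ContinuousLinearMap.proj 2))]

theorem phi_hasFDerivAt (β : ℝ → ℝ) (F : E → ℝ) (s : ℝ) (p : E) (hβ : ContDiff ℝ ∞ β)
    (hF : ContDiff ℝ ∞ F) :
    HasFDerivAt (Phi β F s) (ContinuousLinearMap.pi (phi_D β F s p)) p := by
  have hβ1 := contDiff_infty_iff_deriv.1 hβ
  have hβ2 := contDiff_infty_iff_deriv.1 hβ1.2
  have h2 : HasFDerivAt (fun q : E => q 2) (ContinuousLinearMap.proj (R := ℝ) (φ := fun _ => ℝ) 2)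
      p := hasFDerivAt_apply 2 p
  have h0 : HasFDerivAt (fun q : E => q 0) (ContinuousLinearMap.proj (R := ℝ) (φ := fun _ => ℝ) 0)
      p := hasFDerivAt_apply 0 p
  have h1 : HasFDerivAt (fun q : E => q 1) (ContinuousLinearMap.proj (R := ℝ) (φ := fun _ => ℝ) 1)
      p := hasFDerivAt_apply 1 p
  have h3 : HasFDerivAt (fun q : E => q 3) (ContinuousLinearMap.proj (R := ℝ) (φ := fun _ => ℝ) 3)
      p := hasFDerivAt_apply 3 p
  have hF' : HasFDerivAt F (fderiv ℝ F p) p :=
    ((hF.differentiable (by norm_num)) p).hasFDerivAt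
  have hal : HasDerivAt (fun t => al β s t) ((s - 1) * deriv β (p 2)) (p 2) := by
    unfold al
    exact ((hβ1.1 (p 2)).hasDerivAt.const_mul (s - 1)).const_add 1
  have hal' : HasFDerivAt (fun q : E => al β s (q 2)) (((s - 1) * deriv β (p 2)) •
      (ContinuousLinearMap.proj (R := ℝ) (φ := fun _ => ℝ) 2 : E →L[ℝ] ℝ)) p :=
    HasDerivAt.comp_hasFDerivAt (h₂ := fun t => al β s t) (f := fun q : E => q 2) p hal h2
  have hbd : HasDerivAt (fun t => (s - 1) * deriv β t) ((s - 1) * deriv (deriv β) (p 2)) (p 2) :=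
    (hβ2.1 (p 2)).hasDerivAt.const_mul (s - 1)
  have hbd' : HasFDerivAt (fun q : E => (s - 1) * deriv β (q 2))
      (((s - 1) * deriv (deriv β) (p 2)) •
      (ContinuousLinearMap.proj (R := ℝ) (φ := fun _ => ℝ) 2 : E →L[ℝ] ℝ)) p :=
    HasDerivAt.comp_hasFDerivAt (h₂ := fun t => (s - 1) * deriv β t) (f := fun q : E => q 2) p
      hbd h2
  refine hasFDerivAt_pi.2 ?_
  intro i
  fin_cases i
  · exact hal'.mul h0
  · exact h1
  · exact h2
  · exact (hal'.mul h3).sub (hbd'.mul hF')

theorem phi_apply (β : ℝ → ℝ) (F : E → ℝ) (s : ℝ) (p : E) (hβ : ContDiff ℝ ∞ β)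
    (hF : ContDiff ℝ ∞ F) (u : E) :
    fderiv ℝ (Phi β F s) p u = ![al β s (p 2) * u 0 + p 0 * ((s - 1) * deriv β (p 2) * u 2),
      u 1, u 2, al β s (p 2) * u 3 + p 3 * ((s - 1) * deriv β (p 2) * u 2) -
      ((s - 1) * deriv β (p 2) * fderiv ℝ F p u +
        F p * ((s - 1) * deriv (deriv β) (p 2) * u 2))] := by
  rw [(phi_hasFDerivAt β F s p hβ hF).fderiv]
  funext i
  fin_cases i <;> rfl

theorem st_PHI : ST_PHI := by
  intro L F β t₀ t₁ h
  have hal : ∀ s, 1 ≤ s → ∀ t, 0 < al β s t := by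
    intro s hs t
    unfold al
    have := mul_nonneg (sub_nonneg.2 hs) (h.nonneg t)
    linarith
  refine ⟨?_, ?_, ?_⟩
  · -- injectivity
    intro s hs
    have key : ∀ p ∈ L, ∀ q ∈ L, Phi β F s p = Phi β F s q → ¬ q 3 < p 3 := by
      intro p hp q hq he hlt
      have e1 : p 1 = q 1 := congrFun he 1
      have e2 : p 2 = q 2 := congrFun he 2
      have e0 : al β s (p 2) * p 0 = al β s (q 2) * q 0 := congrFun he 0
      have e3 : al β s (p 2) * p 3 - (s - 1) * deriv β (p 2) * F p =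
        al β s (q 2) * q 3 - (s - 1) * deriv β (q 2) * F q := congrFun he 3
      rw [← e2] at e0 e3
      have e0' : p 0 = q 0 := mul_left_cancel₀ (hal s hs _).ne' e0
      have hpos : 0 < al β s (p 2) * (p 3 - q 3) := mul_pos (hal s hs _) (sub_pos.2 hlt)
      have e4 : al β s (p 2) * (p 3 - q 3) = (s - 1) * deriv β (p 2) * (F p - F q) := by
        linear_combination e3
      rw [e4] at hpos
      by_cases hd : deriv β (p 2) = 0
      · rw [hd] at hpos
        simp at hpos
      · obtain ⟨l1, l2⟩ := h.loc _ hd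
        have hF := h.slab p hp q hq l1 l2 e0' e1 e2 hlt
        have : (s - 1) * deriv β (p 2) * (F p - F q) ≤ 0 :=
          mul_nonpos_of_nonpos_of_nonneg
            (mul_nonpos_of_nonneg_of_nonpos (sub_nonneg.2 hs) (h.anti _)) (sub_nonneg.2 hF.le)
        linarith
    intro p hp q hq he
    have e1 : p 1 = q 1 := congrFun he 1
    have e2 : p 2 = q 2 := congrFun he 2
    have e0 : al β s (p 2) * p 0 = al β s (q 2) * q 0 := congrFun he 0
    rw [← e2] at e0
    have e0' : p 0 = q 0 := mul_left_cancel₀ (hal s hs _).ne' e0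
    have e3 : p 3 = q 3 :=
      le_antisymm (not_lt.1 (key p hp q hq he)) (not_lt.1 (key q hq p hp he.symm))
    funext i
    fin_cases i
    · exact e0'
    · exact e1
    · exact e2
    · exact e3
  · intro s hs p hp
    rw [injective_iff_map_eq_zero]
    intro u hu
    rw [phi_apply β F s p h.smβ h.smF u] at hu
    have u1 : u 1 = 0 := congrFun hu 1
    have u2 : u 2 = 0 := congrFun hu 2
    have e0 : al β s (p 2) * u 0 + p 0 * ((s - 1) * deriv β (p 2) * u 2) = 0 := congrFun hu 0
    have e3 : al β s (p 2) * u 3 + p 3 * ((s - 1) * deriv β (p 2) * u 2) -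
      ((s - 1) * deriv β (p 2) * fderiv ℝ F p u +
        F p * ((s - 1) * deriv (deriv β) (p 2) * u 2)) = 0 := congrFun hu 3
    rw [u2] at e0 e3
    have u0 : u 0 = 0 := by
      have : al β s (p 2) * u 0 = 0 := by linarith
      exact (mul_eq_zero.1 this).resolve_left (hal s hs _).ne'
    have hdd : deriv β (p 2) * fderiv ℝ F p u = 0 := by
      by_cases hd : deriv β (p 2) = 0
      · rw [hd, zero_mul]
      · have hle : p 2 ≤ t₁ := (h.loc _ hd).2.le
        rw [h.diff p hp hle u, u1, u2]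
        ring
    have u3 : u 3 = 0 := by
      have : al β s (p 2) * u 3 = 0 := by
        have e5 : (s - 1) * deriv β (p 2) * fderiv ℝ F p u = 0 := by
          rw [mul_assoc, hdd, mul_zero]
        linarith
      exact (mul_eq_zero.1 this).resolve_left (hal s hs _).ne'
    funext i
    fin_cases i
    · exact u0
    · exact u1
    · exact u2
    · exact u3
  · intro s p hp u
    have hβ1 := contDiff_infty_iff_deriv.1 h.smβ
    have h2 : HasFDerivAt (fun q : E => q 2)
        (ContinuousLinearMap.proj (R := ℝ) (φ := fun _ => ℝ) 2) p := hasFDerivAt_apply 2 p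
    have hb : HasFDerivAt (fun q : E => β (q 2)) (deriv β (p 2) •
      (ContinuousLinearMap.proj (R := ℝ) (φ := fun _ => ℝ) 2 : E →L[ℝ] ℝ)) p :=
      (hβ1.1 (p 2)).hasDerivAt.comp_hasFDerivAt p h2
    have hF' : HasFDerivAt F (fderiv ℝ F p) p :=
      ((h.smF.differentiable (by norm_num)) p).hasFDerivAt
    have e : fderiv ℝ (fun q => β (q 2) * F q) p u =
        β (p 2) * fderiv ℝ F p u + F p * (deriv β (p 2) * u 2) := by
      have hm : HasFDerivAt (fun q : E => β (q 2) * F q) (β (p 2) • fderiv ℝ F p +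
        F p • (deriv β (p 2) •
          (ContinuousLinearMap.proj (R := ℝ) (φ := fun _ => ℝ) 2 : E →L[ℝ] ℝ))) p := hb.mul hF'
      rw [hm.fderiv]
      rfl
    rw [e, phi_apply β F s p h.smβ h.smF u]
    have e2 : om (Vel β F p) ![al β s (p 2) * u 0 + p 0 * ((s - 1) * deriv β (p 2) * u 2),
      u 1, u 2, al β s (p 2) * u 3 + p 3 * ((s - 1) * deriv β (p 2) * u 2) -
      ((s - 1) * deriv β (p 2) * fderiv ℝ F p u +
        F p * ((s - 1) * deriv (deriv β) (p 2) * u 2))] =
        β (p 2) * p 0 * u 1 - (β (p 2) * p 3 - deriv β (p 2) * F p) * u 2 := by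
      unfold om Vel
      show β (p 2) * p 0 * u 1 - 0 * _ + 0 * _ - (β (p 2) * p 3 - deriv β (p 2) * F p) * u 2 = _
      ring
    rw [e2]
    rcases le_or_gt (p 2) t₁ with hle | hgt
    · rw [h.diff p hp hle u]
      ring
    · have hd : deriv β (p 2) = 0 := by
        by_contra hd
        exact absurd (h.loc _ hd).2 (not_lt.2 hgt.le)
      rw [hd, h.zero _ hgt.le]
      ring

end GW
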